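import Pool.Agent.H126R2.CDC.Main

set_option autoImplicit false

/-!
No smallest counterexample to the circuit double cover conjecture has a cyclic 4-edge-cut.

Graphs are finite, loops and parallel edges are allowed: `MGraph V E` is a graph with vertex set
`V` and edge set `E`, `G.IsCircuit C` says that `C` is the edge set of a circuit, `G.Bridgeless`
says that every edge lies on a circuit, and `G.IsCDC F` says that the finite family (multiset) `F`
of circuits covers every edge exactly twice (all four in `Pool.Agent.H126R2.CDC.Defs`).

The proof uses the circuit double cover theorem `MGraph.exists_cdc`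
(`Pool.Agent.H126R2.CDC.Main`): every finite bridgeless graph has a circuit double cover. Hence
there is no counterexample, so none with a cyclic 4-edge-cut.
-/

namespace Pool.Agent.Results.MP_b1bfa0_co.NoCyclicFourCut

open Pool.Agent.H126R2.CDC (MGraph)

variable {V E : Type} [Fintype V] [DecidableEq V] [Fintype E] [DecidableEq E]

/-- A counterexample to the circuit double cover conjecture: a bridgeless graph without a circuit
double cover. -/
def IsCounterexample (G : MGraph V E) : Prop :=
  G.Bridgeless ∧ ¬ ∃ F : Multiset (Finset E), G.IsCDC F

/-- A smallest counterexample: a counterexample `G` for which `|V(G)| + |E(G)|` is minimum among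
all counterexamples. -/
def IsSmallestCounterexample (G : MGraph V E) : Prop :=
  IsCounterexample G ∧
    ∀ (V' E' : Type) [Fintype V'] [DecidableEq V'] [Fintype E'] [DecidableEq E']
      (G' : MGraph V' E'), IsCounterexample G' →
        Fintype.card V + Fintype.card E ≤ Fintype.card V' + Fintype.card E'

/-- The edge-cut of the vertex set `X`: the edges with exactly one end in `X`. -/
def edgeCut (G : MGraph V E) (X : Finset V) : Finset E :=
  Finset.univ.filter fun e => (∃ x ∈ G.ends e, x ∈ X) ∧ ∃ y ∈ G.ends e, y ∉ X

/-- The vertices `u` and `v` lie in the same component of `G - T`: they are joined by a path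
without edges of `T`. -/
def Joined (G : MGraph V E) (T : Finset E) (u v : V) : Prop :=
  Relation.ReflTransGen (fun a b => ∃ e, e ∉ T ∧ G.ends e = s(a, b)) u v

/-- At least two components of `G - T` contain a circuit: there are two circuits without edges of
`T`, with vertices `u` and `v` that lie in different components of `G - T`. -/
def TwoCyclicComponents (G : MGraph V E) (T : Finset E) : Prop :=
  ∃ C₁ C₂ : Finset E, G.IsCircuit C₁ ∧ G.IsCircuit C₂ ∧ Disjoint C₁ T ∧ Disjoint C₂ T ∧
    ∃ u v : V, (∃ e ∈ C₁, u ∈ G.ends e) ∧ (∃ e ∈ C₂, v ∈ G.ends e) ∧ ¬ Joined G T u v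

/-- `G` has a cyclic 4-edge-cut: an edge-cut of a nonempty proper vertex set with exactly four
edges such that at least two components of `G - T` contain a circuit. -/
def HasCyclicFourEdgeCut (G : MGraph V E) : Prop :=
  ∃ X : Finset V, X.Nonempty ∧ X ≠ Finset.univ ∧ (edgeCut G X).card = 4 ∧
    TwoCyclicComponents G (edgeCut G X)

/-- No smallest counterexample to the circuit double cover conjecture has a cyclic 4-edge-cut. -/
theorem result (V E : Type) [Fintype V] [DecidableEq V] [Fintype E] [DecidableEq E]
    (G : MGraph V E) (hG : IsSmallestCounterexample G) : ¬ HasCyclicFourEdgeCut G :=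
  fun _ => hG.1.2 (G.exists_cdc hG.1.1)

end Pool.Agent.Results.MP_b1bfa0_co.NoCyclicFourCut
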